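import Mathlib

namespace Pool.Agent.H.MP_4912e6_co

open Quaternion MeasureTheory

def e : Fin 4 → ℍ[ℝ] := ![⟨1, 0, 0, 0⟩, ⟨0, 1, 0, 0⟩, ⟨0, 0, 1, 0⟩, ⟨0, 0, 0, 1⟩]

theorem L1 (P Q z : ℍ[ℝ]) : ∑ m, (P * (e m * z)).re * (Q * star (e m * z)).re =
    normSq z * (P * Q).re := by
  simp [Fin.sum_univ_four, e, normSq_def']
  ring

theorem L2 (C D B y : ℍ[ℝ]) : ∑ m, (C * (e m * y) * D * star (e m * y) * B).re =
    4 * normSq y * D.re * (C * B).re := by
  simp [Fin.sum_univ_four, e, normSq_def']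
  ring

theorem L3 (A B x : ℍ[ℝ]) : ∑ m, (B * (e m * x) * A).re * (star (e m * x) * A * B).re =
    normSq x * (2 * (A * B).re ^ 2 - normSq A * normSq B) := by
  simp [Fin.sum_univ_four, e, normSq_def']
  ring

def sg : Fin 3 → Fin 4 → ℤ := ![![1, 1, -1, -1], ![1, -1, 1, -1], ![1, -1, -1, 1]]

noncomputable def r (d : Fin 3) (p : ℍ[ℝ]) : Fin 3 → ℝ :=
  ![(star p * e d.succ * p).imI, (star p * e d.succ * p).imJ, (star p * e d.succ * p).imK]

theorem L4 (m : Fin 4) (p q : ℍ[ℝ]) : 4 * (star p * e m * q).re ^ 2 =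
    normSq p * normSq q + ∑ d, ∑ c, (sg d m : ℝ) * r d p c * r d q c := by
  have h : ∀ m : Fin 4, m = 0 ∨ m = 1 ∨ m = 2 ∨ m = 3 := by decide
  simp only [Fin.sum_univ_three, r, Matrix.cons_val_zero, Matrix.cons_val_one, Matrix.cons_val,
    re_mul, imI_mul, imJ_mul, imK_mul, normSq_def']
  rcases h m with rfl | rfl | rfl | rfl <;> simp [e, sg, Fin.succ] <;> ring

theorem L5 (d : Fin 3) (p : ℍ[ℝ]) : ∑ c, r d p c ^ 2 = normSq p ^ 2 := by
  have h : ∀ m : Fin 3, m = 0 ∨ m = 1 ∨ m = 2 := by decide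
  simp only [Fin.sum_univ_three, r, Matrix.cons_val_zero, Matrix.cons_val_one, Matrix.cons_val,
    re_mul, imI_mul, imJ_mul, imK_mul, normSq_def']
  rcases h d with rfl | rfl | rfl <;> simp [e, Fin.succ] <;> ring

def bt (i : Fin 16) (k : ℕ) : ℕ := i.1 / 2 ^ k % 2

def a (i j : Fin 16) : Fin 4 :=
  if (bt i 0 * bt j 0 + bt i 1 * bt j 1 + bt i 2 * bt j 2 + bt i 3 * bt j 3) % 2 = 0 then
    (if (bt i 0 * bt j 1 + bt i 1 * (bt j 0 + bt j 1) + bt i 2 * bt j 3 +
      bt i 3 * (bt j 2 + bt j 3)) % 2 = 0 then 0 else 1)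
  else
    (if (bt i 0 * bt j 1 + bt i 1 * (bt j 0 + bt j 1) + bt i 2 * bt j 3 +
      bt i 3 * (bt j 2 + bt j 3)) % 2 = 0 then 2 else 3)

theorem orth : ∀ (d : Fin 3) (j k : Fin 16),
    ∑ i, sg d (a i j) * sg d (a i k) = if j = k then 16 else 0 := by
  decide +kernel

theorem had (d : Fin 3) (x y : Fin 16 → ℝ) :
    ∑ i, ∑ j, (sg d (a i j) : ℝ) * x i * y j ≤ 2 * ∑ i, x i ^ 2 + 2 * ∑ j, y j ^ 2 := by
  have h : ∑ i, (∑ j, (sg d (a i j) : ℝ) * y j) ^ 2 = 16 * ∑ j, y j ^ 2 := by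
    have o : ∀ j k, ∑ i, (sg d (a i j) : ℝ) * sg d (a i k) = if j = k then 16 else 0 := fun j k => by
      exact_mod_cast orth d j k
    calc _ = ∑ i, ∑ j, ∑ k, (sg d (a i j) : ℝ) * sg d (a i k) * (y j * y k) := by
          refine Finset.sum_congr rfl fun i _ => ?_
          rw [sq, Finset.sum_mul_sum]
          exact Finset.sum_congr rfl fun j _ => Finset.sum_congr rfl fun k _ => by ring
      _ = ∑ j, ∑ k, (∑ i, (sg d (a i j) : ℝ) * sg d (a i k)) * (y j * y k) := by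
          rw [Finset.sum_comm]
          refine Finset.sum_congr rfl fun j _ => ?_
          rw [Finset.sum_comm]
          exact Finset.sum_congr rfl fun k _ => (Finset.sum_mul _ _ _).symm
      _ = _ := by
          simp only [o, ite_mul, zero_mul, Finset.sum_ite_eq, Finset.mem_univ, if_true,
            Finset.mul_sum, sq]
  calc _ ≤ ∑ i, (2 * x i ^ 2 + (∑ j, (sg d (a i j) : ℝ) * y j) ^ 2 / 8) := by
        refine Finset.sum_le_sum fun i _ => ?_
        have : ∑ j, (sg d (a i j) : ℝ) * x i * y j = x i * ∑ j, (sg d (a i j) : ℝ) * y j := by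
          rw [Finset.mul_sum]
          exact Finset.sum_congr rfl fun j _ => by ring
        rw [this]
        nlinarith [sq_nonneg (4 * x i - ∑ j, (sg d (a i j) : ℝ) * y j)]
    _ = _ := by
        rw [Finset.sum_add_distrib, ← Finset.mul_sum, ← Finset.sum_div, h]
        ring

theorem bound (p q : Fin 16 → ℍ[ℝ]) (hp : ∀ i, normSq (p i) = 1) (hq : ∀ i, normSq (q i) = 1) :
    ∑ i, ∑ j, (star (p i) * e (a i j) * q j).re ^ 2 ≤ 112 := by
  have h1 : 4 * ∑ i, ∑ j, (star (p i) * e (a i j) * q j).re ^ 2 =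
      256 + ∑ d, ∑ c, ∑ i, ∑ j, (sg d (a i j) : ℝ) * r d (p i) c * r d (q j) c := by
    simp only [Finset.mul_sum, L4, hp, hq, Finset.sum_add_distrib]
    congr 1
    · norm_num
    · symm
      calc _ = ∑ d, ∑ i, ∑ j, ∑ c, (sg d (a i j) : ℝ) * r d (p i) c * r d (q j) c := by
            refine Finset.sum_congr rfl fun d _ => ?_
            rw [Finset.sum_comm]
            exact Finset.sum_congr rfl fun i _ => Finset.sum_comm
        _ = _ := by
            rw [Finset.sum_comm]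
            exact Finset.sum_congr rfl fun i _ => Finset.sum_comm
  have h2 : ∀ d, ∑ c, ∑ i, ∑ j, (sg d (a i j) : ℝ) * r d (p i) c * r d (q j) c ≤ 64 := by
    intro d
    refine (Finset.sum_le_sum fun c _ => had d (fun i => r d (p i) c) fun j => r d (q j) c).trans
      (le_of_eq ?_)
    rw [Finset.sum_add_distrib, ← Finset.mul_sum, ← Finset.mul_sum, Finset.sum_comm,
      Finset.sum_comm (f := fun c j => r d (q j) c ^ 2)]
    simp only [L5, hp, hq]
    norm_num
  have h3 := h2 0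
  have h4 := h2 1
  have h5 := h2 2
  rw [Fin.sum_univ_three] at h1
  linarith

end Pool.Agent.H.MP_4912e6_co
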