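import Pool.Agent.H.MP_4912e6_co.A

namespace Pool.Agent.H.MP_4912e6_co

open Quaternion MeasureTheory

abbrev S : Type := Metric.sphere (0 : ℍ[ℝ]) 1

noncomputable instance mS : MeasurableSpace S := borel _
instance bS : BorelSpace S := ⟨rfl⟩

instance cS : ConnectedSpace S := by
  refine isConnected_iff_connectedSpace.1 (isConnected_sphere ?_ _ zero_le_one)
  rw [Quaternion.rank_eq_four]
  norm_num

abbrev G0 : Type := Fin 3 × Fin 16 → S

noncomputable def m0 : Measure G0 := Measure.haarMeasure ⊤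

instance : m0.IsHaarMeasure := by unfold m0; infer_instance

instance : IsProbabilityMeasure m0 := ⟨by
  have := Measure.haarMeasure_self (G := G0) (K₀ := ⊤)
  simpa [m0] using this⟩

@[fun_prop] theorem cre : Continuous fun q : ℍ[ℝ] => q.re := Quaternion.continuous_re

theorem nS (s : S) : normSq (s : ℍ[ℝ]) = 1 := by
  have : ‖(s : ℍ[ℝ])‖ = 1 := by simp
  rw [normSq_eq_norm_mul_self, this, one_mul]

theorem ne (m : Fin 4) : normSq (e m) = 1 := by
  rw [normSq_def']
  fin_cases m <;> simp [e]

def eS (m : Fin 4) : S := ⟨e m, by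
  have h := ne m
  rw [normSq_eq_norm_mul_self] at h
  have : ‖e m‖ = 1 := by nlinarith [norm_nonneg (e m)]
  simpa using this⟩

theorem invS (s : S) : ((s⁻¹ : S) : ℍ[ℝ]) = star (s : ℍ[ℝ]) := by
  rw [Metric.unitSphere.coe_inv]
  refine (eq_inv_of_mul_eq_one_left ?_).symm
  rw [star_mul_self, nS]
  rfl

noncomputable def co (u : G0) (k : Fin 3 × Fin 16) : ℍ[ℝ] := u k

@[fun_prop] theorem cco (k : Fin 3 × Fin 16) : Continuous fun u => co u k := by
  unfold co
  fun_prop

theorem nco (u : G0) (k : Fin 3 × Fin 16) : normSq (co u k) = 1 := nS _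

theorem co_mul (g u : G0) (k : Fin 3 × Fin 16) : co (g * u) k = co g k * co u k := rfl

theorem co_inv (u : G0) (k : Fin 3 × Fin 16) : co u⁻¹ k = star (co u k) := invS _

theorem co_e (m : Fin 4) (u : G0) (k l : Fin 3 × Fin 16) :
    co (Pi.mulSingle k (eS m) * u) l = if l = k then e m * co u l else co u l := by
  rw [co_mul]
  split_ifs with h
  · subst h
    simp only [co, Pi.mulSingle_eq_same]
    rfl
  · simp only [co, Pi.mulSingle_eq_of_ne h]
    exact one_mul _

theorem co_n (u : G0) (k l : Fin 3 × Fin 16) :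
    co (Pi.mulSingle k (-1) * u) l = if l = k then -co u l else co u l := by
  rw [co_mul]
  split_ifs with h
  · subst h
    simp only [co, Pi.mulSingle_eq_same]
    exact neg_one_mul _
  · simp only [co, Pi.mulSingle_eq_of_ne h]
    exact one_mul _

theorem intg {F : G0 → ℝ} (h : Continuous F) : Integrable F m0 :=
  h.integrable_of_hasCompactSupport (HasCompactSupport.of_compactSpace F)

theorem avg {F P : G0 → ℝ} (hF : Continuous F) (k : Fin 3 × Fin 16) (c : ℝ)
    (h : ∀ u, ∑ m, F (Pi.mulSingle k (eS m) * u) = c * P u) :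
    4 * ∫ u, F u ∂m0 = c * ∫ u, P u ∂m0 := by
  rw [← integral_const_mul]
  simp only [← integral_const_mul, ← h]
  rw [integral_finsetSum _ fun m _ => intg (by fun_prop)]
  simp only [integral_mul_left_eq_self, integral_const_mul]
  simp

theorem flip {F : G0 → ℝ} (k : Fin 3 × Fin 16)
    (h : ∀ u, F (Pi.mulSingle k (-1) * u) = -F u) : ∫ u, F u ∂m0 = 0 := by
  have := integral_mul_left_eq_self (μ := m0) F (Pi.mulSingle k (-1))
  simp only [h, integral_neg] at this
  linarith

noncomputable def ph (i j : Fin 16) (x : G0) : ℝ :=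
  (star (co x (1, i)) * e (a i j) * co x (2, j) * co x (0, 0)).re

@[fun_prop] theorem cph (i j : Fin 16) : Continuous (ph i j) := by
  unfold ph
  fun_prop

theorem ph_le (i j : Fin 16) (x : G0) : |ph i j x| ≤ 1 := by
  have h : normSq (star (co x (1, i)) * e (a i j) * co x (2, j) * co x (0, 0)) = 1 := by
    simp [nco, ne]
  rw [normSq_def'] at h
  rw [← sq_le_one_iff_abs_le_one]
  unfold ph
  nlinarith [sq_nonneg (star (co x (1, i)) * e (a i j) * co x (2, j) * co x (0, 0)).imI,
    sq_nonneg (star (co x (1, i)) * e (a i j) * co x (2, j) * co x (0, 0)).imJ,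
    sq_nonneg (star (co x (1, i)) * e (a i j) * co x (2, j) * co x (0, 0)).imK]

theorem ph1 (i j : Fin 16) (g u : G0) : ph i j (g * u) =
    (star (co u (1, i)) * (star (co g (1, i)) * e (a i j) * co g (2, j)) * co u (2, j) *
      co g (0, 0) * co u (0, 0)).re := by
  simp only [ph, co_mul, star_mul, mul_assoc]

theorem ph2 (i j : Fin 16) (g u : G0) : ph i j (g * u⁻¹) =
    ((co u (1, i)) * (star (co g (1, i)) * e (a i j) * co g (2, j)) * star (co u (2, j)) *
      co g (0, 0) * star (co u (0, 0))).re := by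
  simp only [ph, co_mul, co_inv, star_mul, star_star, mul_assoc]

theorem mean1 (i j : Fin 16) (g : G0) : ∫ u, ph i j (g * u) ∂m0 = 0 :=
  flip (0, 0) fun u => by
    rw [ph1, ph1]
    simp [co_n, -re_mul]

theorem mean2 (i j : Fin 16) (g : G0) : ∫ u, ph i j (g * u⁻¹) ∂m0 = 0 :=
  flip (0, 0) fun u => by
    rw [ph2, ph2]
    simp [co_n, -re_mul]

theorem cross1 (i j i' j' : Fin 16) (g : G0) (h : i ≠ i') :
    ∫ u, ph i j (g * u) * ph i' j' (g * u⁻¹) ∂m0 = 0 :=
  flip (1, i) fun u => by
    rw [ph2, ph2, ph1, ph1]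
    simp [co_n, h.symm, -re_mul]

theorem cross2 (i j i' j' : Fin 16) (g : G0) (h : j ≠ j') :
    ∫ u, ph i j (g * u) * ph i' j' (g * u⁻¹) ∂m0 = 0 :=
  flip (2, j) fun u => by
    rw [ph2, ph2, ph1, ph1]
    simp [co_n, h.symm, -re_mul]

theorem diag0 (i j : Fin 16) (A B : ℍ[ℝ]) (hA : normSq A = 1) (hB : normSq B = 1) :
    16 * ∫ u : G0, (star (co u (1, i)) * A * co u (2, j) * B * co u (0, 0)).re *
      ((co u (1, i)) * A * star (co u (2, j)) * B * star (co u (0, 0))).re ∂m0 =
      2 * (A * B).re ^ 2 - 1 := by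
  have h1 := avg (F := fun u => (star (co u (1, i)) * A * co u (2, j) * B * co u (0, 0)).re *
      ((co u (1, i)) * A * star (co u (2, j)) * B * star (co u (0, 0))).re)
    (P := fun u => (star (co u (1, i)) * A * co u (2, j) * (B * co u (1, i) * A) *
      star (co u (2, j)) * B).re) (by fun_prop) (0, 0) 1 fun u => by
      have := L1 (star (co u (1, i)) * A * co u (2, j) * B)
        ((co u (1, i)) * A * star (co u (2, j)) * B) (co u (0, 0))
      rw [nco] at this
      simpa [co_e, mul_assoc, -re_mul] using this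
  have h2 := avg (F := fun u => (star (co u (1, i)) * A * co u (2, j) * (B * co u (1, i) * A) *
      star (co u (2, j)) * B).re)
    (P := fun u => (B * co u (1, i) * A).re * (star (co u (1, i)) * A * B).re)
    (by fun_prop) (2, j) 4 fun u => by
      have := L2 (star (co u (1, i)) * A) (B * co u (1, i) * A) B (co u (2, j))
      rw [nco] at this
      simpa [co_e, mul_assoc, -re_mul] using this
  have h3 := avg (F := fun u => (B * co u (1, i) * A).re * (star (co u (1, i)) * A * B).re)
    (P := fun _ => 1) (by fun_prop) (1, i) (2 * (A * B).re ^ 2 - 1) fun u => by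
      have := L3 A B (co u (1, i))
      rw [nco, hA, hB] at this
      simpa [co_e, mul_assoc, -re_mul] using this
  simp only [integral_const, probReal_univ, smul_eq_mul, mul_one] at h3
  linarith

theorem diag (i j : Fin 16) (g : G0) :
    ∫ u, ph i j (g * u) * ph i j (g * u⁻¹) ∂m0 =
      (2 * (star (co g (1, i)) * e (a i j) * (co g (2, j) * co g (0, 0))).re ^ 2 - 1) / 16 := by
  have := diag0 i j (star (co g (1, i)) * e (a i j) * co g (2, j)) (co g (0, 0))
    (by simp [nco, ne]) (nco _ _)
  simp only [ph2]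
  simp only [ph1]
  rw [mul_assoc (star (co g (1, i)) * e (a i j))] at this
  linarith

noncomputable def f (x : G0) : ℝ := (∑ i, ∑ j, ph i j x) / 256

@[fun_prop] theorem cf : Continuous f := by
  unfold f
  fun_prop

theorem f_le (x : G0) : |f x| ≤ 1 := by
  unfold f
  rw [abs_div, div_le_one (by norm_num)]
  refine (Finset.abs_sum_le_sum_abs _ _).trans ?_
  refine (Finset.sum_le_sum fun i _ => (Finset.abs_sum_le_sum_abs _ _).trans
    (Finset.sum_le_sum fun j _ => ph_le i j x)).trans ?_
  norm_num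

theorem f1 (g : G0) : ∫ u, f (g * u) ∂m0 = 0 := by
  unfold f
  rw [integral_div, integral_finsetSum _ fun m _ => intg (by fun_prop)]
  rw [Finset.sum_eq_zero, zero_div]
  intro i _
  rw [integral_finsetSum _ fun m _ => intg (by fun_prop)]
  simp [mean1]

theorem f2 (g : G0) : ∫ u, f (g * u⁻¹) ∂m0 = 0 := by
  unfold f
  rw [integral_div, integral_finsetSum _ fun m _ => intg (by fun_prop)]
  rw [Finset.sum_eq_zero, zero_div]
  intro i _
  rw [integral_finsetSum _ fun m _ => intg (by fun_prop)]
  simp [mean2]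

theorem f3 (g : G0) : ∫ u, f (g * u) * f (g * u⁻¹) ∂m0 ≤ -1 / 32768 := by
  have h1 : ∀ u, f (g * u) * f (g * u⁻¹) = (∑ p : Fin 16 × Fin 16, ∑ q : Fin 16 × Fin 16,
      ph p.1 p.2 (g * u) * ph q.1 q.2 (g * u⁻¹)) / 65536 := fun u => by
    rw [← Finset.sum_mul_sum, Fintype.sum_prod_type, Fintype.sum_prod_type]
    unfold f
    ring
  simp only [h1]
  rw [integral_div, integral_finsetSum _ fun m _ => intg (by fun_prop)]
  have h2 : ∀ p : Fin 16 × Fin 16, ∫ u, ∑ q : Fin 16 × Fin 16,
      ph p.1 p.2 (g * u) * ph q.1 q.2 (g * u⁻¹) ∂m0 =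
      (2 * (star (co g (1, p.1)) * e (a p.1 p.2) * (co g (2, p.2) * co g (0, 0))).re ^ 2 - 1) / 16 := by
    intro p
    rw [integral_finsetSum _ fun m _ => intg (by fun_prop), Finset.sum_eq_single p, diag]
    · intro q _ hq
      by_cases h : p.1 = q.1
      · exact cross2 _ _ _ _ _ fun h' => hq (Prod.ext h h').symm
      · exact cross1 _ _ _ _ _ h
    · simp
  simp only [h2]
  have h3 := bound (fun i => co g (1, i)) (fun j => co g (2, j) * co g (0, 0)) (fun _ => nco _ _)
    (fun _ => by simp [nco])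
  rw [← Finset.sum_div, Finset.sum_sub_distrib, ← Finset.mul_sum, Fintype.sum_prod_type]
  simp only [Finset.sum_const, Finset.card_univ, Fintype.card_prod, Fintype.card_fin,
    nsmul_eq_mul]
  push_cast
  linarith

end Pool.Agent.H.MP_4912e6_co
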