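import Pool.Agent.H.MP_4912e6_co.B

namespace Pool.Agent.H.MP_4912e6_co

open MeasureTheory Set

abbrev T : Type := Multiplicative UnitAddCircle

noncomputable instance mT : MeasurableSpace T := inferInstanceAs (MeasurableSpace UnitAddCircle)
instance bT : BorelSpace T := inferInstanceAs (BorelSpace UnitAddCircle)
instance : ConnectedSpace T := inferInstanceAs (ConnectedSpace UnitAddCircle)
instance : SecondCountableTopology T := inferInstanceAs (SecondCountableTopology UnitAddCircle)
instance : T2Space T := inferInstanceAs (T2Space UnitAddCircle)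

noncomputable def nu : Measure T := (volume : Measure UnitAddCircle)

instance : IsProbabilityMeasure nu := ⟨UnitAddCircle.measure_univ⟩

instance : nu.IsHaarMeasure where
  map_mul_left_eq_self g := map_add_left_eq_self (volume : Measure UnitAddCircle) g.toAdd
  lt_top_of_isCompact _ _ := measure_lt_top _ _
  open_pos _ h hn := h.measure_ne_zero (volume : Measure UnitAddCircle) hn

noncomputable def rep (s : T) : ℝ := AddCircle.equivIco 1 0 s.toAdd

theorem rep_mem (s : T) : rep s ∈ Ico (0 : ℝ) 1 := by
  simpa [rep] using (AddCircle.equivIco 1 0 s.toAdd).2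

theorem rep_coe (s : T) : (rep s : UnitAddCircle) = s.toAdd :=
  (AddCircle.equivIco 1 0).symm_apply_apply s.toAdd

theorem mrep : Measurable rep :=
  measurable_subtype_coe.comp (AddCircle.measurableEquivIco 1 0).measurable

noncomputable def cell (N : ℕ) (s : T) : Fin (N + 1) :=
  ⟨⌊N * rep s⌋₊, Nat.lt_succ_of_le (Nat.floor_le_of_le
    (mul_le_of_le_one_right N.cast_nonneg (rep_mem s).2.le))⟩

theorem mcell (N : ℕ) : Measurable (cell N) := by
  refine measurable_to_countable' fun k => ?_
  have : cell N ⁻¹' {k} = (fun s => ⌊N * rep s⌋₊) ⁻¹' {k.1} := by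
    ext s
    simp [cell, Fin.ext_iff]
  rw [this]
  exact (Nat.measurable_floor.comp (mrep.const_mul _)) (measurableSet_singleton _)

theorem cell_eq {N : ℕ} (hN : 0 < N) {s t : T} (h : cell N s = cell N t) :
    ‖s.toAdd - t.toAdd‖ ≤ 1 / N := by
  have h0 : ⌊N * rep s⌋₊ = ⌊N * rep t⌋₊ := congrArg Fin.val h
  have hN' : (0 : ℝ) < N := by exact_mod_cast hN
  have a1 := Nat.floor_le (mul_nonneg hN'.le (rep_mem s).1)
  have a2 := Nat.floor_le (mul_nonneg hN'.le (rep_mem t).1)
  have a3 := Nat.lt_floor_add_one (N * rep s)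
  have a4 := Nat.lt_floor_add_one (N * rep t)
  rw [h0] at a1 a3
  rw [← rep_coe, ← rep_coe, ← AddCircle.coe_sub]
  refine (QuotientAddGroup.norm_mk_le_norm).trans ?_
  rw [Real.norm_eq_abs, le_div_iff₀ hN', ← abs_of_pos hN', ← abs_mul, abs_le]
  constructor <;> nlinarith

theorem bad {N : ℕ} (hN : 0 < N) (s : T) :
    nu {t | cell N (s * t) = cell N (s * t⁻¹)} ≤ ENNReal.ofReal (2 / N) := by
  have h1 : {t | cell N (s * t) = cell N (s * t⁻¹)} ⊆
      (fun t : UnitAddCircle => (2 : ℤ) • t) ⁻¹' Metric.closedBall 0 (1 / N) := fun t ht => by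
    have := cell_eq hN ht
    simp only [toAdd_mul, toAdd_inv, add_sub_add_left_eq_sub, sub_neg_eq_add] at this
    change (2 : ℤ) • t.toAdd ∈ Metric.closedBall (0 : UnitAddCircle) (1 / N)
    rwa [mem_closedBall_zero_iff, two_zsmul]
  refine (measure_mono h1).trans ?_
  have h2 := (Measure.measurePreserving_zsmul (volume : Measure UnitAddCircle)
    (n := 2) two_ne_zero).measure_preimage
    (Metric.isClosed_closedBall (x := 0) (ε := 1 / N)).measurableSet.nullMeasurableSet
  refine h2.le.trans ?_
  rw [AddCircle.volume_closedBall]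
  exact ENNReal.ofReal_le_ofReal ((min_le_right _ _).trans (by ring_nf; rfl))

def E (i : Fin 2) (p : ℝ) : Set T :=
  if i = 1 then {t | ‖t.toAdd‖ ≤ (1 + p) / 4} else {t | ‖t.toAdd‖ ≤ (1 + p) / 4}ᶜ

theorem mE0 (p : ℝ) : MeasurableSet {t : T | ‖t.toAdd‖ ≤ (1 + p) / 4} :=
  (isClosed_le (continuous_norm.comp continuous_toAdd) continuous_const).measurableSet

theorem mE (i : Fin 2) (p : ℝ) : MeasurableSet (E i p) := by
  unfold E
  split_ifs
  exacts [mE0 p, (mE0 p).compl]

def sn (i : Fin 2) : ℝ := if i = 1 then 1 else -1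

theorem nuE (i : Fin 2) {p : ℝ} (hp : |p| ≤ 1) :
    nu (E i p) = ENNReal.ofReal ((1 + sn i * p) / 2) := by
  obtain ⟨h1, h2⟩ := abs_le.1 hp
  have h : nu {t : T | ‖t.toAdd‖ ≤ (1 + p) / 4} = ENNReal.ofReal ((1 + p) / 2) := by
    have := AddCircle.volume_closedBall 1 (x := 0) ((1 + p) / 4)
    rw [min_eq_right (by linarith)] at this
    rw [show (1 + p) / 2 = 2 * ((1 + p) / 4) by ring, ← this]
    congr 1
    ext t
    exact mem_closedBall_zero_iff.symm
  unfold E sn
  split_ifs
  · rw [h, one_mul]
  · rw [prob_compl_eq_one_sub (mE0 p), h, ← ENNReal.ofReal_one, ← ENNReal.ofReal_sub _ (by linarith)]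
    congr 1
    ring

abbrev G (N : ℕ) : Type := (G0 × T) × (Fin (N + 1) → T)

noncomputable def mu (N : ℕ) : Measure (G N) := (m0.prod nu).prod (Measure.pi fun _ => nu)

instance (N : ℕ) : (mu N).IsHaarMeasure := by
  haveI : (m0.prod nu).IsHaarMeasure := Measure.prod.instIsHaarMeasure _ _
  haveI : (Measure.pi fun _ : Fin (N + 1) => nu).IsHaarMeasure := Measure.pi.isHaarMeasure _
  haveI : MeasurableMul (G0 × T) := inferInstance
  haveI : MeasurableMul (Fin (N + 1) → T) := inferInstance
  exact Measure.prod.instIsHaarMeasure _ _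

instance (N : ℕ) : IsProbabilityMeasure (mu N) := by unfold mu; infer_instance

noncomputable def chi (N : ℕ) (z : G N) : Fin 2 :=
  if ‖(z.2 (cell N z.1.2)).toAdd‖ ≤ (1 + f z.1.1) / 4 then 1 else 0

theorem chi_eq {N : ℕ} {z : G N} {i : Fin 2} :
    chi N z = i ↔ z.2 (cell N z.1.2) ∈ E i (f z.1.1) := by
  unfold chi E
  fin_cases i <;> simp

theorem mchi (N : ℕ) : Measurable (chi N) := by
  have h1 : Measurable fun p : (Fin (N + 1) → T) × Fin (N + 1) => p.1 p.2 :=
    measurable_from_prod_countable_left fun k => measurable_pi_apply k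
  have h2 : Measurable fun z : G N => z.2 (cell N z.1.2) :=
    h1.comp (measurable_snd.prodMk ((mcell N).comp (measurable_snd.comp measurable_fst)))
  have h3 : Measurable fun z : G N => (1 + f z.1.1) / 4 := Continuous.measurable (by fun_prop)
  refine Measurable.ite (measurableSet_le ?_ h3) measurable_const measurable_const
  exact (continuous_norm.comp continuous_toAdd).measurable.comp h2

theorem ind {N : ℕ} {k l : Fin (N + 1)} (h : k ≠ l) (x y : T) {A B : Set T} (hA : MeasurableSet A)
    (hB : MeasurableSet B) :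
    Measure.pi (fun _ => nu) {t : Fin (N + 1) → T | x * t k ∈ A ∧ y * (t l)⁻¹ ∈ B} =
      nu A * nu B := by
  have p1 := measurePreserving_mul_left nu x
  have p2 := (measurePreserving_mul_left nu y).comp (Measure.measurePreserving_inv nu)
  have := ((ProbabilityTheory.iIndepFun_pi (μ := fun _ : Fin (N + 1) => nu) (X := fun _ => id)
    fun _ => aemeasurable_id).indepFun h).measure_inter_preimage_eq_mul _ _
    (p1.measurable hA) (p2.measurable hB)
  rw [← (p1.comp (measurePreserving_eval (fun _ => nu) k)).measure_preimage hA.nullMeasurableSet,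
    ← (p2.comp (measurePreserving_eval (fun _ => nu) l)).measure_preimage hB.nullMeasurableSet]
  exact this

theorem main {N : ℕ} (hN : 0 < N) (g : G N) (i : Fin 2) :
    mu N {w | chi N (g * w) = i ∧ chi N (g * w⁻¹) = i} ≤
      ENNReal.ofReal (1 / 4 - 1 / 131072 + 2 / N) := by
  have hm : MeasurableSet {w | chi N (g * w) = i ∧ chi N (g * w⁻¹) = i} :=
    (((mchi N).comp (measurable_const_mul g)) (measurableSet_singleton i)).inter
      (((mchi N).comp ((measurable_const_mul g).comp measurable_inv)) (measurableSet_singleton i))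
  set q : G0 → ℝ := fun u => (1 + sn i * f (g.1.1 * u)) / 2 * ((1 + sn i * f (g.1.1 * u⁻¹)) / 2)
  have hs : ∀ x, 0 ≤ (1 + sn i * f x) / 2 := fun x => by
    obtain ⟨h1, h2⟩ := abs_le.1 (f_le x)
    unfold sn
    split_ifs <;> linarith
  have hq : Continuous q := by fun_prop
  set D : Set T := {t | cell N (g.1.2 * t) = cell N (g.1.2 * t⁻¹)}
  have hD : MeasurableSet D := measurableSet_eq_fun ((mcell N).comp (measurable_const_mul _))
    ((mcell N).comp ((measurable_const_mul _).comp measurable_inv))
  rw [mu, Measure.prod_apply hm]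
  calc _ ≤ ∫⁻ h, (ENNReal.ofReal (q h.1) + (Prod.snd ⁻¹' D).indicator 1 h) ∂m0.prod nu := by
        refine lintegral_mono fun h => ?_
        by_cases hh : h.2 ∈ D
        · rw [indicator_of_mem (show h ∈ Prod.snd ⁻¹' D from hh)]
          exact prob_le_one.trans le_add_self
        · refine le_trans (le_of_eq ?_) le_self_add
          rw [ENNReal.ofReal_mul (hs _), ← nuE i (f_le _), ← nuE i (f_le _),
            ← ind hh (g.2 (cell N (g.1.2 * h.2))) (g.2 (cell N (g.1.2 * h.2⁻¹))) (mE _ _) (mE _ _)]
          congr 1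
          ext t
          simp only [mem_preimage, mem_ofPred_eq, chi_eq]
          rfl
    _ = ENNReal.ofReal (∫ u, q u ∂m0) + nu D := by
        rw [lintegral_add_right _ (measurable_one.indicator (measurable_snd hD)),
          lintegral_indicator_one (measurable_snd hD),
          measurePreserving_snd.measure_preimage hD.nullMeasurableSet,
          measurePreserving_fst.lintegral_comp (f := fun u => ENNReal.ofReal (q u))
            hq.measurable.ennreal_ofReal,
          ofReal_integral_eq_lintegral_ofReal (intg hq)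
            (Filter.Eventually.of_forall fun u => mul_nonneg (hs _) (hs _))]
    _ ≤ _ := by
        rw [ENNReal.ofReal_add (by norm_num) (by positivity)]
        refine add_le_add (ENNReal.ofReal_le_ofReal ?_) (bad hN _)
        have e1 : ∀ u, q u = (1 + sn i * f (g.1.1 * u) + sn i * f (g.1.1 * u⁻¹) +
            f (g.1.1 * u) * f (g.1.1 * u⁻¹)) / 4 := fun u => by
          simp only [q, sn]
          split_ifs <;> ring
        simp only [e1]
        rw [integral_div, integral_add (intg (by fun_prop)) (intg (by fun_prop)),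
          integral_add (intg (by fun_prop)) (intg (by fun_prop)),
          integral_add (intg (by fun_prop)) (intg (by fun_prop)), integral_const_mul,
          integral_const_mul, f1, f2]
        have := f3 g.1.1
        simp only [integral_const, probReal_univ, smul_eq_mul]
        linarith

theorem final {N : ℕ} (hN : 0 < N) (A : Set (G N)) (i : Fin 2) (g : G N)
    (h1 : A ⊆ chi N ⁻¹' {i}) (h2 : (fun x => g * x⁻¹ * g) '' A = A) :
    mu N A ≤ ENNReal.ofReal (1 / 4 - 1 / 131072 + 2 / N) := by
  rw [← measure_preimage_mul (mu N) g A]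
  refine (measure_mono fun w hw => ?_).trans (main hN g i)
  refine ⟨h1 hw, h1 ?_⟩
  rw [← h2]
  exact ⟨g * w, hw, by group⟩

end Pool.Agent.H.MP_4912e6_co
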